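import Pool.Agent.Y765.FC.Patterns

/-!
# f-convexity of h-convex drawings cannot be tested on subdrawings of any bounded size

For every `n ≥ 9` there is an h-convex drawing of `K_n`, all of whose edges are great circle
arcs, that is not f-convex although all its proper induced subdrawings are f-convex.  So for no
`m` is an h-convex drawing f-convex if and only if all its `K_m`-subdrawings are (`m = 8` is the
question).  The definitions (`S2`, `IsArc`, `IsTransversalCrossing`, `GoodDrawing`,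
`IsComponent`, `image`, `IsSide`, `IsConvexSide`, `IsConvex`, `IsHConvex`, `IsFace`,
`IsFConvex`, `restrict`) are those of `Pool.Agent.H858FC.Defs`.

Construction, for `L = n - 5`: the vertices are in the directions `(0,0,-1)`, `(-1,-1/4,c)` and
`(1,j,h_j)`, `-1 ≤ j ≤ L+1`, where `h_j = j^2 + δ_j` for `0 ≤ j ≤ L`, `c = 4(L+2)^4`, and
`h_{-1}`, `h_{L+1}` are large.  For `L` even `δ_j = 3/2` for odd `j` and `0` for even `j`; for
`L` odd `δ_2 = δ_3 = 7/2`, `δ_j = 3/2` for even `j ≥ 6`, and `δ_j = 0` otherwise.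
-/

set_option autoImplicit false

namespace Pool.Agent.Results.MP_406ab0_co.NoSizeSuffices

open Pool.Agent.H858FC Pool.Agent.Y765.FC

/-- All edges are great circle arcs (the shortest ones between their ends). -/
def IsGeodesic {V : Type} (D : GoodDrawing V) : Prop :=
  ∀ u v : V, u ≠ v → ∀ z : S2, z ∈ D.arc u v ↔
    ∃ s t : ℝ, 0 ≤ s ∧ 0 ≤ t ∧
      (z : EuclideanSpace ℝ (Fin 3)) = s • (D.pt u : EuclideanSpace ℝ (Fin 3)) +
        t • (D.pt v : EuclideanSpace ℝ (Fin 3))

theorem geo_isGeodesic {V : Type} {P : V → E3} (h : Gen P) : IsGeodesic (geo P h) := by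
  intro u v _ z
  have hu := h.ne_zero u
  have hv := h.ne_zero v
  have nu : (0 : ℝ) < ‖P u‖ := norm_pos_iff.2 hu
  have nv : (0 : ℝ) < ‖P v‖ := norm_pos_iff.2 hv
  have eu : ((geo P h).pt u : E3) = ‖P u‖⁻¹ • P u := toS_coe hu
  have ev : ((geo P h).pt v : E3) = ‖P v‖⁻¹ • P v := toS_coe hv
  rw [eu, ev]
  constructor
  · rintro ⟨s, t, hs, ht, e⟩
    refine ⟨s * ‖P u‖, t * ‖P v‖, by positivity, by positivity, ?_⟩
    rw [e, smul_smul, smul_smul, mul_assoc, mul_assoc, mul_inv_cancel₀ nu.ne',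
      mul_inv_cancel₀ nv.ne', mul_one, mul_one]
  · rintro ⟨s, t, hs, ht, e⟩
    refine ⟨s * ‖P u‖⁻¹, t * ‖P v‖⁻¹, by positivity, by positivity, ?_⟩
    rw [e, smul_smul, smul_smul]

/-- For every `n ≥ 9` there is an h-convex good drawing of `K_n` with geodesic edges that is not
f-convex, while `D[J]` is f-convex for every proper subset `J` of the vertices.  Hence for no `m`
(in particular not for `m = 8`) is it true that for all `n` an h-convex drawing `D` of `K_n` is
f-convex if and only if `D[J]` is f-convex for every `K_m`-subgraph `J`. -/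
theorem result :
    (∀ n : ℕ, 9 ≤ n → ∃ D : GoodDrawing (Fin n), IsGeodesic D ∧ D.IsHConvex ∧ ¬ D.IsFConvex ∧
      ∀ J : Finset (Fin n), J ≠ Finset.univ → (D.restrict J).IsFConvex) ∧
    (∀ m : ℕ, ¬ (∀ (n : ℕ) (D : GoodDrawing (Fin n)), D.IsHConvex →
      (D.IsFConvex ↔ ∀ J : Finset (Fin n), J.card = m → (D.restrict J).IsFConvex))) := by
  have main : ∀ n : ℕ, 9 ≤ n → ∃ D : GoodDrawing (Fin n), IsGeodesic D ∧ D.IsHConvex ∧
      ¬ D.IsFConvex ∧ ∀ J : Finset (Fin n), J ≠ Finset.univ → (D.restrict J).IsFConvex := by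
    intro n hn
    obtain ⟨N, rfl⟩ : ∃ N, n = N + 5 := ⟨n - 5, by omega⟩
    obtain ⟨δ, h⟩ := exists_chain N (by omega)
    exact ⟨DR h, geo_isGeodesic _, DR_hconvex h, DR_not_fconvex h, DR_sub h⟩
  refine ⟨main, ?_⟩
  intro m H
  obtain ⟨D, -, h1, h2, h3⟩ := main (max 9 (m + 1)) (le_max_left _ _)
  refine h2 ((H _ D h1).2 fun J hJ => h3 J ?_)
  rintro rfl
  rw [Finset.card_univ, Fintype.card_fin] at hJ
  have := le_max_right 9 (m + 1)
  omega

end Pool.Agent.Results.MP_406ab0_co.NoSizeSuffices
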